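import Mathlib
import Pool.Agent.H895.Hensel

set_option autoImplicit false

namespace Pool.Agent.H895

open Polynomial

/-- `ι(a) = algebraMap a` for constants -/
lemma ofPowerSeries_C_eq (K : Type) [Field K] (a : K) :
    HahnSeries.ofPowerSeries ℤ K (PowerSeries.C a) = algebraMap K (LaurentSeries K) a := by
  rw [HahnSeries.algebraMap_apply']
  rfl

/-- A Laurent series `β x^(-N) w` with `N > 0`, `β ≠ 0` and `w(0) ≠ 0` is transcendental. -/
lemma transcendental_of_pole (K : Type) [Field K] (β : K) (hβ : β ≠ 0) (N : ℕ) (hN : 0 < N)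
    (w : PowerSeries K) (hw : PowerSeries.constantCoeff w ≠ 0) (h : K[X]) (hh : h ≠ 0) :
    aeval (algebraMap K (LaurentSeries K) β
      * ((HahnSeries.ofPowerSeries ℤ K PowerSeries.X) ^ N)⁻¹
      * HahnSeries.ofPowerSeries ℤ K w) h ≠ 0 := by
  classical
  set ι : PowerSeries K →+* LaurentSeries K := HahnSeries.ofPowerSeries ℤ K with hι
  set x : LaurentSeries K := ι PowerSeries.X with hx
  have hx0 : x ≠ 0 := by
    rw [hx, hι, HahnSeries.ofPowerSeries_X]
    exact HahnSeries.single_ne_zero one_ne_zero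
  set m := h.natDegree with hm
  set B : PowerSeries K := ∑ j ∈ Finset.range (m + 1),
    PowerSeries.C (h.coeff j * β ^ j) * PowerSeries.X ^ (N * (m - j)) * w ^ j with hB
  have hBc : PowerSeries.constantCoeff B ≠ 0 := by
    rw [hB, map_sum, Finset.sum_eq_single m]
    · rw [Nat.sub_self, mul_zero, pow_zero, mul_one, map_mul, map_pow,
        PowerSeries.constantCoeff_C]
      exact mul_ne_zero (mul_ne_zero (leadingCoeff_ne_zero.2 hh) (pow_ne_zero _ hβ))
        (pow_ne_zero _ hw)
    · intro k hk hkN
      have hk' : k < m := lt_of_le_of_ne (Nat.lt_succ_iff.1 (Finset.mem_range.1 hk)) hkN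
      rw [map_mul, map_mul, map_pow, PowerSeries.constantCoeff_X, zero_pow, mul_zero,
        zero_mul]
      exact Nat.mul_ne_zero (by omega) (by omega)
    · intro h; exact absurd (Finset.self_mem_range_succ m) h
  intro h0
  apply hBc
  have h1 : ι B = 0 := by
    have h2 : x ^ (N * m) * aeval (algebraMap K (LaurentSeries K) β * (x ^ N)⁻¹ * ι w) h
        = ι B := by
      rw [hB, aeval_eq_sum_range, ← hm, Finset.mul_sum, map_sum]
      refine Finset.sum_congr rfl fun k hk => ?_
      have hk' : k ≤ m := Nat.lt_succ_iff.1 (Finset.mem_range.1 hk)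
      obtain ⟨r, hr⟩ := Nat.exists_eq_add_of_le hk'
      have hr' : m - k = r := by omega
      rw [hr', map_mul, map_mul, map_pow, map_pow, hι, ofPowerSeries_C_eq, ← hι, ← hx, map_mul,
        map_pow, Algebra.smul_def, mul_pow, mul_pow, inv_pow, ← pow_mul]
      have h5 : x ^ (N * m) = x ^ (N * r) * x ^ (N * k) := by
        rw [← pow_add]
        congr 1
        rw [hr]; ring
      rw [h5]
      have h6 : x ^ (N * k) ≠ 0 := pow_ne_zero _ hx0
      field_simp
    rw [← h2, h0, mul_zero]
  have h3 : B = 0 := by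
    apply HahnSeries.ofPowerSeries_injective (Γ := ℤ) (R := K)
    rw [map_zero]
    exact h1
  rw [h3, map_zero]

/-- The variable of the power series ring is transcendental. -/
lemma transcendental_X (K : Type) [Field K] (h : K[X]) (hh : h ≠ 0) :
    aeval (HahnSeries.ofPowerSeries ℤ K PowerSeries.X) h ≠ 0 := by
  have h1 : aeval (HahnSeries.ofPowerSeries ℤ K PowerSeries.X) h
      = HahnSeries.ofPowerSeries ℤ K (h : PowerSeries K) := by
    induction h using Polynomial.induction_on' with
    | add p q hp hq =>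
      by_cases hp0 : p = 0
      · by_cases hq0 : q = 0
        · rw [hp0, hq0]; simp
        · rw [hp0, zero_add]; exact hq hq0
      · by_cases hq0 : q = 0
        · rw [hq0, add_zero]; exact hp hp0
        · rw [map_add, hp hp0, hq hq0, Polynomial.coe_add, map_add]
    | monomial n a =>
      rw [← C_mul_X_pow_eq_monomial, map_mul, map_pow, aeval_C, aeval_X, Polynomial.coe_mul,
        Polynomial.coe_pow, Polynomial.coe_C, Polynomial.coe_X, map_mul, map_pow,
        ofPowerSeries_C_eq]
  rw [h1]
  intro h0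
  apply hh
  apply Polynomial.coe_injective
  rw [Polynomial.coe_zero]
  apply HahnSeries.ofPowerSeries_injective (Γ := ℤ) (R := K)
  rw [map_zero]
  exact h0

/-- The curve `P(z) = g(T)` has a point in `K((x))` when the degrees of `P` and `g` are coprime
and positive and the degree of `g` is prime to the characteristic. -/
lemma curve_point_aux (K : Type) [Field K] (P g : K[X]) (N e : ℕ) (hN : P.natDegree = N)
    (he : g.natDegree = e) (hN0 : 0 < N) (he0 : 0 < e) (hcop : Nat.Coprime N e)
    (hchar : (e : K) ≠ 0) :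
    ∃ z T : LaurentSeries K, aeval z P = aeval T g ∧ ∀ h : K[X], h ≠ 0 → aeval T h ≠ 0 := by
  classical
  have hP : P ≠ 0 := by
    intro h; rw [h, natDegree_zero] at hN; omega
  have hg : g ≠ 0 := by
    intro h; rw [h, natDegree_zero] at he; omega
  set c := P.leadingCoeff with hc
  set d := g.leadingCoeff with hd
  have hc0 : c ≠ 0 := leadingCoeff_ne_zero.2 hP
  have hd0 : d ≠ 0 := leadingCoeff_ne_zero.2 hg
  have hcN : P.coeff N = c := by rw [hc, leadingCoeff, hN]
  have hde : g.coeff e = d := by rw [hd, leadingCoeff, he]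
  -- the constants
  obtain ⟨α, β, hα, hβ, hαβ⟩ : ∃ α β : K, α ≠ 0 ∧ β ≠ 0 ∧ c * α ^ N = d * β ^ e := by
    set r : K := d / c with hr
    have hr0 : r ≠ 0 := div_ne_zero hd0 hc0
    have hbez : (1 : ℤ) = N * Nat.gcdA N e + e * Nat.gcdB N e := by
      have := Nat.gcd_eq_gcd_ab N e
      rw [hcop.gcd_eq_one] at this
      exact_mod_cast this
    refine ⟨r ^ Nat.gcdA N e, r ^ (-Nat.gcdB N e), zpow_ne_zero _ hr0, zpow_ne_zero _ hr0, ?_⟩
    have h1 : (r ^ Nat.gcdA N e) ^ N = r * (r ^ (-Nat.gcdB N e)) ^ e := by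
      rw [← zpow_natCast, ← zpow_natCast, ← zpow_mul, ← zpow_mul]
      conv_rhs => rw [← zpow_one r, ← zpow_mul, ← zpow_add₀ hr0]
      congr 1
      have : (1 : ℤ) * 1 = 1 := rfl
      linarith [hbez]
    rw [h1, hr]
    field_simp
  -- the polynomial for `w`
  set π : PowerSeries K := PowerSeries.X with hπ
  set A : PowerSeries K := ∑ k ∈ Finset.range (N + 1),
    PowerSeries.C (P.coeff k * α ^ k) * π ^ (e * (N - k)) with hA
  set G : Polynomial (PowerSeries K) := (∑ j ∈ Finset.range (e + 1),
    Polynomial.C (PowerSeries.C (g.coeff j * β ^ j) * π ^ (N * (e - j))) * Polynomial.X ^ j)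
      - Polynomial.C A with hG
  have hevG : ∀ w, G.eval w = (∑ j ∈ Finset.range (e + 1),
      PowerSeries.C (g.coeff j * β ^ j) * π ^ (N * (e - j)) * w ^ j) - A := by
    intro w
    rw [hG, eval_sub, eval_finsetSum, eval_C]
    simp
  have hcA : PowerSeries.constantCoeff A = c * α ^ N := by
    rw [hA, map_sum, Finset.sum_eq_single N]
    · rw [Nat.sub_self, mul_zero, pow_zero, mul_one, hcN, PowerSeries.constantCoeff_C]
    · intro k hk hkN
      have hk' : k < N := lt_of_le_of_ne (Nat.lt_succ_iff.1 (Finset.mem_range.1 hk)) hkN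
      rw [map_mul, map_pow, hπ, PowerSeries.constantCoeff_X, zero_pow, mul_zero]
      exact Nat.mul_ne_zero (by omega) (by omega)
    · intro h; exact absurd (Finset.self_mem_range_succ N) h
  have h1 : PowerSeries.constantCoeff (G.eval 1) = 0 := by
    rw [hevG, map_sub, hcA, map_sum, Finset.sum_eq_single e]
    · rw [Nat.sub_self, mul_zero, pow_zero, mul_one, one_pow, mul_one, hde,
        PowerSeries.constantCoeff_C, hαβ, sub_self]
    · intro k hk hkN
      have hk' : k < e := lt_of_le_of_ne (Nat.lt_succ_iff.1 (Finset.mem_range.1 hk)) hkN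
      rw [map_mul, map_mul, map_pow, hπ, PowerSeries.constantCoeff_X, zero_pow, mul_zero,
        zero_mul]
      exact Nat.mul_ne_zero (by omega) (by omega)
    · intro h; exact absurd (Finset.self_mem_range_succ e) h
  have h2 : PowerSeries.constantCoeff (G.derivative.eval 1) ≠ 0 := by
    have h3 : G.derivative.eval 1 = ∑ j ∈ Finset.range (e + 1),
        PowerSeries.C (g.coeff j * β ^ j) * π ^ (N * (e - j)) * (j : PowerSeries K) := by
      rw [hG, derivative_sub, derivative_C, sub_zero, derivative_sum, eval_finsetSum]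
      refine Finset.sum_congr rfl fun j _ => ?_
      rw [derivative_C_mul, derivative_X_pow]
      simp
    rw [h3, map_sum, Finset.sum_eq_single e]
    · rw [Nat.sub_self, mul_zero, pow_zero, mul_one, hde, map_mul, map_natCast,
        PowerSeries.constantCoeff_C]
      exact mul_ne_zero (mul_ne_zero hd0 (pow_ne_zero _ hβ)) hchar
    · intro k hk hkN
      have hk' : k < e := lt_of_le_of_ne (Nat.lt_succ_iff.1 (Finset.mem_range.1 hk)) hkN
      rw [map_mul, map_mul, map_pow, hπ, PowerSeries.constantCoeff_X, zero_pow, mul_zero,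
        zero_mul]
      exact Nat.mul_ne_zero (by omega) (by omega)
    · intro h; exact absurd (Finset.self_mem_range_succ e) h
  obtain ⟨w, hw, hw1⟩ := hensel_powerSeries G 1 h1 h2
  have hw2 : PowerSeries.constantCoeff w ≠ 0 := by
    rw [map_sub, map_one, sub_eq_zero] at hw1
    rw [hw1]
    exact one_ne_zero
  rw [hevG, sub_eq_zero] at hw
  -- pass to Laurent series
  set ι : PowerSeries K →+* LaurentSeries K := HahnSeries.ofPowerSeries ℤ K with hι
  set x : LaurentSeries K := ι π with hx
  have hx0 : x ≠ 0 := by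
    rw [hx, hι, hπ, HahnSeries.ofPowerSeries_X]
    exact HahnSeries.single_ne_zero one_ne_zero
  have hιC : ∀ a : K, ι (PowerSeries.C a) = algebraMap K (LaurentSeries K) a := by
    intro a
    rw [hι, HahnSeries.algebraMap_apply']
    rfl
  refine ⟨algebraMap K _ α * (x ^ e)⁻¹, algebraMap K _ β * (x ^ N)⁻¹ * ι w, ?_,
    fun h hh => transcendental_of_pole K β hβ N hN0 w hw2 h hh⟩
  have hxN : x ^ (N * e) ≠ 0 := pow_ne_zero _ hx0
  apply mul_left_cancel₀ hxN
  have hL : x ^ (N * e) * aeval (algebraMap K (LaurentSeries K) α * (x ^ e)⁻¹) P = ι A := by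
    rw [aeval_eq_sum_range, hN, Finset.mul_sum, hA, map_sum]
    refine Finset.sum_congr rfl fun k hk => ?_
    have hk' : k ≤ N := Nat.lt_succ_iff.1 (Finset.mem_range.1 hk)
    obtain ⟨m, hm⟩ := Nat.exists_eq_add_of_le hk'
    have hm' : N - k = m := by omega
    rw [hm', map_mul, map_pow, hιC, ← hx, map_mul, map_pow, Algebra.smul_def, mul_pow, inv_pow,
      ← pow_mul]
    have h5 : x ^ (N * e) = x ^ (e * m) * x ^ (e * k) := by
      rw [← pow_add]
      congr 1
      rw [hm]; ring
    rw [h5]
    have h6 : x ^ (e * k) ≠ 0 := pow_ne_zero _ hx0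
    field_simp
  have hR : x ^ (N * e) * aeval (algebraMap K (LaurentSeries K) β * (x ^ N)⁻¹ * ι w) g
      = ι A := by
    rw [← hw, aeval_eq_sum_range, he, Finset.mul_sum, map_sum]
    refine Finset.sum_congr rfl fun k hk => ?_
    have hk' : k ≤ e := Nat.lt_succ_iff.1 (Finset.mem_range.1 hk)
    obtain ⟨m, hm⟩ := Nat.exists_eq_add_of_le hk'
    have hm' : e - k = m := by omega
    rw [hm', map_mul, map_mul, map_pow, map_pow, hιC, ← hx, map_mul, map_pow, Algebra.smul_def,
      mul_pow, mul_pow, inv_pow, ← pow_mul]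
    have h5 : x ^ (N * e) = x ^ (N * m) * x ^ (N * k) := by
      rw [← pow_add]
      congr 1
      rw [hm]; ring
    rw [h5]
    have h6 : x ^ (N * k) ≠ 0 := pow_ne_zero _ hx0
    field_simp
  rw [hL, hR]

/-- The curve `P(z) = g(T)` has a point in `K((x))` when the degrees of `P` and `g` are coprime
and positive. -/
lemma curve_point (K : Type) [Field K] (P g : K[X]) (hN0 : 0 < P.natDegree)
    (he0 : 0 < g.natDegree) (hcop : Nat.Coprime P.natDegree g.natDegree) :
    ∃ z T : LaurentSeries K, aeval z P = aeval T g := by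
  by_cases hchar : (g.natDegree : K) = 0
  · have hchar' : (P.natDegree : K) ≠ 0 := by
      intro h
      have hbez : (1 : ℤ) = P.natDegree * Nat.gcdA P.natDegree g.natDegree
          + g.natDegree * Nat.gcdB P.natDegree g.natDegree := by
        have := Nat.gcd_eq_gcd_ab P.natDegree g.natDegree
        rw [hcop.gcd_eq_one] at this
        exact_mod_cast this
      have h1 := congrArg (Int.cast : ℤ → K) hbez
      push_cast at h1
      rw [h, hchar, zero_mul, zero_mul, add_zero] at h1
      exact one_ne_zero h1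
    obtain ⟨z, T, h, -⟩ := curve_point_aux K g P g.natDegree P.natDegree rfl rfl he0 hN0
      hcop.symm hchar'
    exact ⟨T, z, h.symm⟩
  · obtain ⟨z, T, h, -⟩ := curve_point_aux K P g P.natDegree g.natDegree rfl rfl hN0 he0 hcop
      hchar
    exact ⟨z, T, h⟩

end Pool.Agent.H895
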