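import Mathlib
import Pool.Agent.H895.Hensel

set_option autoImplicit false

namespace Pool.Agent.H895

open MvPolynomial

section line

variable {K : Type*} [Field K] {σ : Type*}

/-- Restriction of a polynomial to the line `μ + T • lam`. -/
noncomputable def line (μ lam : σ → K) (φ : MvPolynomial σ K) : Polynomial K :=
  aeval (fun i => Polynomial.C (μ i) + Polynomial.C (lam i) * Polynomial.X) φ

lemma line_monomial_aux (μ lam : σ → K) (d : σ →₀ ℕ) (S : Finset σ) :
    (∏ i ∈ S, (Polynomial.C (μ i) + Polynomial.C (lam i) * Polynomial.X) ^ d i).natDegree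
      ≤ ∑ i ∈ S, d i ∧
    (∏ i ∈ S, (Polynomial.C (μ i) + Polynomial.C (lam i) * Polynomial.X) ^ d i).coeff
      (∑ i ∈ S, d i) = ∏ i ∈ S, lam i ^ d i := by
  classical
  induction S using Finset.induction_on with
  | empty => simp
  | insert a S ha ih =>
    have h1 : (Polynomial.C (μ a) + Polynomial.C (lam a) * Polynomial.X : Polynomial K).natDegree
        ≤ 1 := by
      refine le_trans (Polynomial.natDegree_add_le _ _) (max_le ?_ ?_)
      · simp
      · exact le_trans (Polynomial.natDegree_C_mul_le _ _) Polynomial.natDegree_X_le
    have h2 : ((Polynomial.C (μ a) + Polynomial.C (lam a) * Polynomial.X : Polynomial K)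
        ^ d a).natDegree ≤ d a := by
      refine le_trans (Polynomial.natDegree_pow_le) ?_
      calc d a * _ ≤ d a * 1 := Nat.mul_le_mul_left _ h1
        _ = d a := mul_one _
    have h3 : ((Polynomial.C (μ a) + Polynomial.C (lam a) * Polynomial.X : Polynomial K)
        ^ d a).coeff (d a) = lam a ^ d a := by
      have := Polynomial.coeff_pow_of_natDegree_le (m := d a) h1
      rw [mul_one] at this
      rw [this]
      congr 1
      simp
    rw [Finset.prod_insert ha, Finset.sum_insert ha, Finset.prod_insert ha]
    refine ⟨le_trans Polynomial.natDegree_mul_le (add_le_add h2 ih.1), ?_⟩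
    rw [Polynomial.coeff_mul_add_eq_of_natDegree_le h2 ih.1, h3, ih.2]

lemma line_add (μ lam : σ → K) (φ ψ : MvPolynomial σ K) :
    line μ lam (φ + ψ) = line μ lam φ + line μ lam ψ := by
  unfold line; rw [map_add]

lemma line_sub (μ lam : σ → K) (φ ψ : MvPolynomial σ K) :
    line μ lam (φ - ψ) = line μ lam φ - line μ lam ψ := by
  unfold line; rw [map_sub]

lemma line_monomial (μ lam : σ → K) (d : σ →₀ ℕ) (c : K) :
    line μ lam (monomial d c) = Polynomial.C c *
      ∏ i ∈ d.support, (Polynomial.C (μ i) + Polynomial.C (lam i) * Polynomial.X) ^ d i := by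
  unfold line
  rw [aeval_monomial]
  rfl

lemma line_natDegree_coeff (μ lam : σ → K) (φ : MvPolynomial σ K) (D : ℕ)
    (hD : φ.totalDegree ≤ D) :
    (line μ lam φ).natDegree ≤ D ∧
      (line μ lam φ).coeff D = eval lam (homogeneousComponent D φ) := by
  classical
  have hsum : line μ lam φ = ∑ d ∈ φ.support, line μ lam (monomial d (coeff d φ)) := by
    conv_lhs => rw [φ.as_sum]
    unfold line
    rw [map_sum]
  have hdeg : ∀ d ∈ φ.support, d.degree ≤ D := fun d hd =>
    le_trans (le_totalDegree hd) hD
  have hmon : ∀ d : σ →₀ ℕ, (line μ lam (monomial d (coeff d φ))).natDegree ≤ d.degree ∧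
      (line μ lam (monomial d (coeff d φ))).coeff d.degree
        = coeff d φ * ∏ i ∈ d.support, lam i ^ d i := by
    intro d
    rw [line_monomial]
    have h := line_monomial_aux μ lam d d.support
    have hdd : d.degree = ∑ i ∈ d.support, d i := rfl
    rw [hdd]
    refine ⟨le_trans (Polynomial.natDegree_C_mul_le _ _) h.1, ?_⟩
    rw [Polynomial.coeff_C_mul, h.2]
  constructor
  · rw [hsum]
    exact Polynomial.natDegree_sum_le_of_forall_le _ _ fun d hd => le_trans (hmon d).1 (hdeg d hd)
  · rw [hsum, Polynomial.finsetSum_coeff, homogeneousComponent_apply, map_sum,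
      Finset.sum_filter]
    refine Finset.sum_congr rfl fun d hd => ?_
    split_ifs with h
    · have := (hmon d).2
      rw [h] at this
      rw [this, eval_monomial]
      rfl
    · apply Polynomial.coeff_eq_zero_of_natDegree_lt
      exact lt_of_le_of_lt (hmon d).1 (lt_of_le_of_ne (hdeg d hd) h)

lemma eval_line {A : Type*} [CommRing A] [Algebra K A] (μ lam : σ → K) (φ : MvPolynomial σ K)
    (s : A) : Polynomial.aeval s (line μ lam φ)
      = aeval (fun i => algebraMap K A (μ i) + algebraMap K A (lam i) * s) φ := by
  unfold line
  induction φ using MvPolynomial.induction_on with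
  | C a => simp
  | add f g hf hg => rw [map_add, map_add, map_add, hf, hg]
  | mul_X f j hf => rw [map_mul, map_mul, map_mul, hf]; simp

end line

section skeleton

variable {K L : Type} [Field K] [Field L] [Algebra K L]
variable {σ : Type} [Finite σ]
variable (O : ValuationSubring L) (hK : ∀ a : K, algebraMap K L a ∈ O)

include hK in
lemma val_const' {a : K} (ha : a ≠ 0) : O.valuation (algebraMap K L a) = 1 := by
  have h1 : O.valuation (algebraMap K L a) ≤ 1 := (O.valuation_le_one_iff _).2 (hK a)
  have h2 : O.valuation (algebraMap K L a⁻¹) ≤ 1 := (O.valuation_le_one_iff _).2 (hK a⁻¹)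
  have h3 : O.valuation (algebraMap K L a) * O.valuation (algebraMap K L a⁻¹) = 1 := by
    rw [← map_mul, ← map_mul, mul_inv_cancel₀ ha, map_one, map_one]
  refine le_antisymm h1 ?_
  calc (1 : O.ValueGroup) = O.valuation (algebraMap K L a) * O.valuation (algebraMap K L a⁻¹) :=
        h3.symm
    _ ≤ O.valuation (algebraMap K L a) * 1 := by gcongr
    _ = _ := mul_one _

include hK in
lemma eq_zero_of_val_lt {a : K} (ha : O.valuation (algebraMap K L a) < 1) : a = 0 := by
  by_contra h
  rw [val_const' O hK h] at ha
  exact lt_irrefl _ ha

include hK in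
omit [Finite σ] in
/-- evaluation at an integral point lies in `O` and reduces to the evaluation at the
residue point. -/
lemma aeval_residue (f : MvPolynomial σ K) (y : σ → L) (b : σ → K)
    (hy : ∀ j, O.valuation (y j - algebraMap K L (b j)) < 1) :
    O.valuation (aeval y f - algebraMap K L (eval b f)) < 1 := by
  have hyO : ∀ j, O.valuation (y j) ≤ 1 := fun j => by
    have h1 : y j = (y j - algebraMap K L (b j)) + algebraMap K L (b j) := by ring
    rw [h1]
    exact Valuation.map_add_le _ (hy j).le ((O.valuation_le_one_iff _).2 (hK _))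
  induction f using MvPolynomial.induction_on with
  | C a =>
    rw [aeval_C, eval_C, sub_self, map_zero]
    exact zero_lt_one
  | add f g hf hg =>
    have h1 : aeval y (f + g) - algebraMap K L (eval b (f + g))
        = (aeval y f - algebraMap K L (eval b f)) + (aeval y g - algebraMap K L (eval b g)) := by
      rw [map_add, map_add, map_add]; ring
    rw [h1]
    exact Valuation.map_add_lt _ hf hg
  | mul_X f j hf =>
    have h1 : aeval y (f * X j) - algebraMap K L (eval b (f * X j))
        = (aeval y f - algebraMap K L (eval b f)) * y j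
          + algebraMap K L (eval b f) * (y j - algebraMap K L (b j)) := by
      rw [map_mul, map_mul, aeval_X, eval_X, map_mul]; ring
    rw [h1]
    refine Valuation.map_add_lt _ ?_ ?_
    · rw [map_mul]
      exact lt_of_le_of_lt (mul_le_of_le_one_right zero_le (hyO j)) hf
    · rw [map_mul]
      exact lt_of_le_of_lt (mul_le_of_le_one_left zero_le
        ((O.valuation_le_one_iff _).2 (hK _))) (hy j)

include hK in
omit [Finite σ] in
/-- leading behaviour at a non-integral point. -/
lemma leading_residue (f : MvPolynomial σ K) (D : ℕ) (hD : f.totalDegree ≤ D) (s : L)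
    (hs : 1 < O.valuation s) (y : σ → L) (b : σ → K)
    (hy : ∀ j, O.valuation (y j - algebraMap K L (b j)) < 1) :
    O.valuation (aeval (fun j => s * y j) f / s ^ D
      - algebraMap K L (eval b (homogeneousComponent D f))) < 1 := by
  classical
  have hs0 : s ≠ 0 := by
    intro h
    rw [h, map_zero] at hs
    exact absurd hs (not_lt.2 zero_le)
  have hyO : ∀ j, O.valuation (y j) ≤ 1 := fun j => by
    have h1 : y j = (y j - algebraMap K L (b j)) + algebraMap K L (b j) := by ring
    rw [h1]
    exact Valuation.map_add_le _ (hy j).le ((O.valuation_le_one_iff _).2 (hK _))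
  have hterm : ∀ d : σ →₀ ℕ, d.degree ≤ D →
      aeval (fun j => s * y j) (monomial d (coeff d f)) / s ^ D
        = s⁻¹ ^ (D - d.degree) * aeval y (monomial d (coeff d f)) := by
    intro d hd
    rw [aeval_monomial, aeval_monomial]
    have h1 : (d.prod fun i k => (s * y i) ^ k) = s ^ d.degree * d.prod fun i k => y i ^ k := by
      have hdd : d.degree = ∑ i ∈ d.support, d i := rfl
      simp only [Finsupp.prod]
      rw [hdd, ← Finset.prod_pow_eq_pow_sum, ← Finset.prod_mul_distrib]
      exact Finset.prod_congr rfl fun i _ => mul_pow _ _ _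
    rw [h1]
    obtain ⟨k, hk⟩ := Nat.exists_eq_add_of_le hd
    have h2 : D - d.degree = k := by omega
    rw [h2, hk, pow_add, inv_pow]
    field_simp
  have hsplit : aeval (fun j => s * y j) f / s ^ D
      - algebraMap K L (eval b (homogeneousComponent D f))
      = ∑ d ∈ f.support, (if d.degree = D then
          (aeval y (monomial d (coeff d f)) - algebraMap K L (eval b (monomial d (coeff d f))))
          else s⁻¹ ^ (D - d.degree) * aeval y (monomial d (coeff d f))) := by
    have h1 : aeval (fun j => s * y j) f / s ^ D
        = ∑ d ∈ f.support, s⁻¹ ^ (D - d.degree) * aeval y (monomial d (coeff d f)) := by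
      conv_lhs => rw [f.as_sum]
      rw [map_sum, Finset.sum_div]
      refine Finset.sum_congr rfl fun d hd => hterm d ?_
      exact le_trans (le_totalDegree hd) hD
    have h2 : algebraMap K L (eval b (homogeneousComponent D f))
        = ∑ d ∈ f.support, (if d.degree = D then
          algebraMap K L (eval b (monomial d (coeff d f))) else 0) := by
      rw [homogeneousComponent_apply, map_sum, map_sum, Finset.sum_filter]
    rw [h1, h2, ← Finset.sum_sub_distrib]
    refine Finset.sum_congr rfl fun d hd => ?_
    split_ifs with h
    · rw [h, Nat.sub_self, pow_zero, one_mul]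
    · rw [sub_zero]
  rw [hsplit]
  refine Valuation.map_sum_lt _ one_ne_zero fun d hd => ?_
  split_ifs with h
  · exact aeval_residue O hK _ y b hy
  · have hlt : d.degree < D := lt_of_le_of_ne (le_trans (le_totalDegree hd) hD) h
    have h1 : O.valuation (aeval y (monomial d (coeff d f))) ≤ 1 := by
      have h2 := aeval_residue O hK (monomial d (coeff d f)) y b hy
      have h3 : aeval y (monomial d (coeff d f))
          = (aeval y (monomial d (coeff d f)) - algebraMap K L (eval b (monomial d (coeff d f))))
            + algebraMap K L (eval b (monomial d (coeff d f))) := by ring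
      rw [h3]
      exact Valuation.map_add_le _ h2.le ((O.valuation_le_one_iff _).2 (hK _))
    rw [map_mul, map_pow, map_inv₀]
    have h4 : (O.valuation s)⁻¹ < 1 := inv_lt_one_of_one_lt₀ hs
    have h5 : (O.valuation s)⁻¹ ^ (D - d.degree) < 1 := pow_lt_one₀ zero_le h4 (by omega)
    exact lt_of_le_of_lt (mul_le_of_le_one_right zero_le h1) h5

omit [Finite σ] in
/-- translation invariance over the infinite field `K` passes to `L`. -/
lemma invariance [Infinite K] (Φ : MvPolynomial σ K) (lam : σ → K)
    (h : ∀ (μ : σ → K) (s : K), eval (fun i => μ i + lam i * s) Φ = eval μ Φ)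
    (u : σ → L) (s : L) :
    aeval (fun i => u i + algebraMap K L (lam i) * s) Φ = aeval u Φ := by
  set Ψ : MvPolynomial (Option σ) K :=
    aeval (fun i => X (some i) + C (lam i) * X none) Φ with hΨ
  have h1 : Ψ = rename some Φ := by
    apply MvPolynomial.funext
    intro x
    have h2 : eval x Ψ = eval (fun i => x (some i) + lam i * x none) Φ := by
      rw [hΨ]
      have : ∀ f : MvPolynomial σ K, eval x (aeval (fun i => X (some i) + C (lam i) * X none) f)
          = eval (fun i => x (some i) + lam i * x none) f := by
        intro f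
        induction f using MvPolynomial.induction_on with
        | C a => simp
        | add f g hf hg => simp only [map_add, hf, hg]
        | mul_X f j hf => simp only [map_mul, hf, aeval_X, map_add, eval_X, eval_C]
      exact this Φ
    rw [h2, h, eval_rename]
    rfl
  have h3 : aeval (fun o : Option σ => o.elim s u) Ψ
      = aeval (fun i => u i + algebraMap K L (lam i) * s) Φ := by
    rw [hΨ]
    have : ∀ f : MvPolynomial σ K, aeval (fun o : Option σ => o.elim s u)
        (aeval (fun i => (X (some i) + C (lam i) * X none : MvPolynomial (Option σ) K)) f)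
        = aeval (fun i => u i + algebraMap K L (lam i) * s) f := by
      intro f
      induction f using MvPolynomial.induction_on with
      | C a => simp
      | add f g hf hg => simp only [map_add, hf, hg]
      | mul_X f j hf =>
        simp only [map_mul, hf, aeval_X, map_add, Option.elim_some, Option.elim_none, aeval_C]
    exact this Φ
  rw [← h3, h1, aeval_rename]
  rfl

include hK in
/-- **Skeleton.** A polynomial of degree at most `D` with a zero in `L` has a zero in `K`, or
there is a `K`-rational line on which it has degree strictly between `0` and `D`. -/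
theorem skeleton [Infinite K]
    (hres : ∀ x ∈ O, ∃ a : K, O.valuation (x - algebraMap K L a) < 1)
    (Φ : MvPolynomial σ K) (D : ℕ) (hD : Φ.totalDegree ≤ D) :
    ∀ (N : ℕ) (u : σ → L), {i | u i ≠ 0}.ncard ≤ N → aeval u Φ = 0 →
    (∃ x : σ → K, eval x Φ = 0) ∨
      ∃ μ lam : σ → K, 0 < (line μ lam Φ).natDegree ∧ (line μ lam Φ).natDegree < D := by
  classical
  intro N
  induction N with
  | zero =>
    intro u hN hu
    left
    have hzero : ∀ i, u i = 0 := by
      intro i
      by_contra hi
      have h1 : {i | u i ≠ 0} = ∅ := (Set.ncard_eq_zero (Set.toFinite _)).1 (by omega)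
      have h2 : i ∈ {i | u i ≠ 0} := hi
      rw [h1] at h2
      exact h2
    refine ⟨fun _ => 0, ?_⟩
    apply eq_zero_of_val_lt O hK
    have h1 := aeval_residue O hK Φ u (fun _ => 0) (fun j => by
      rw [hzero j, map_zero, sub_self, map_zero]; exact zero_lt_one)
    rw [hu, zero_sub, Valuation.map_neg] at h1
    exact h1
  | succ N IH =>
    intro u hN hu
    by_cases hint : ∀ i, u i ∈ O
    · left
      choose b hb using fun i => hres (u i) (hint i)
      refine ⟨b, ?_⟩
      apply eq_zero_of_val_lt O hK
      have h1 := aeval_residue O hK Φ u b hb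
      rw [hu, zero_sub, Valuation.map_neg] at h1
      exact h1
    · push Not at hint
      obtain ⟨j, hj⟩ := hint
      have hne : Nonempty σ := ⟨j⟩
      obtain ⟨i₀, hi₀⟩ := Finite.exists_max (fun i => O.valuation (u i))
      have hs : 1 < O.valuation (u i₀) := by
        refine lt_of_lt_of_le ?_ (hi₀ j)
        rw [← not_le, O.valuation_le_one_iff]; exact hj
      have hs0 : u i₀ ≠ 0 := by
        intro h
        rw [h, map_zero] at hs
        exact absurd hs (not_lt.2 zero_le)
      have hy : ∀ i, ∃ a : K, O.valuation (u i / u i₀ - algebraMap K L a) < 1 ∧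
          (u i = 0 → a = 0) ∧ (i = i₀ → a = 1) := by
        intro i
        by_cases h0 : u i = 0
        · refine ⟨0, ?_, fun _ => rfl, ?_⟩
          · rw [h0, zero_div, map_zero, sub_self, map_zero]; exact zero_lt_one
          · intro hi; exact absurd (hi ▸ h0) hs0
        · by_cases h1 : i = i₀
          · refine ⟨1, ?_, fun h => absurd h h0, fun _ => rfl⟩
            rw [h1, div_self hs0, map_one, sub_self, map_zero]; exact zero_lt_one
          · obtain ⟨a, ha⟩ := hres (u i / u i₀) ((O.valuation_le_one_iff _).1 (by
              rw [map_div₀]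
              exact div_le_one_of_le₀ (hi₀ i) zero_le))
            exact ⟨a, ha, fun h => absurd h h0, fun h => absurd h h1⟩
      choose lam hlam1 hlam2 hlam3 using hy
      -- the leading form vanishes at `lam`
      have hlead : eval lam (homogeneousComponent D Φ) = 0 := by
        apply eq_zero_of_val_lt O hK
        have h1 := leading_residue O hK Φ D hD (u i₀) hs (fun i => u i / u i₀) lam hlam1
        have h2 : (fun j => u i₀ * (u j / u i₀)) = u := by
          funext j
          rw [mul_div_cancel₀ _ hs0]
        rw [h2, hu, zero_div, zero_sub, Valuation.map_neg] at h1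
        exact h1
      by_cases hinv : ∀ (μ : σ → K) (s : K), eval (fun i => μ i + lam i * s) Φ = eval μ Φ
      · -- invariant direction: reduce the number of nonzero coordinates
        have h1 := invariance (L := L) Φ lam hinv u (-u i₀)
        rw [hu] at h1
        refine IH _ ?_ h1
        have hsub : {i | u i + algebraMap K L (lam i) * -u i₀ ≠ 0} ⊆ {i | u i ≠ 0} \ {i₀} := by
          intro i hi
          refine ⟨?_, ?_⟩
          · intro h0
            apply hi
            rw [h0, hlam2 i h0, map_zero, zero_mul, add_zero]
          · intro h0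
            apply hi
            have h0' : i = i₀ := h0
            rw [hlam3 i h0', map_one, one_mul, h0', add_neg_cancel]
        have h2 : ({i | u i ≠ 0} \ {i₀}).ncard < {i | u i ≠ 0}.ncard := by
          refine Set.ncard_sdiff_singleton_lt_of_mem ?_ (Set.toFinite _)
          exact hs0
        have h3 := Set.ncard_le_ncard hsub (Set.toFinite _)
        omega
      · right
        push Not at hinv
        obtain ⟨μ, s, hμ⟩ := hinv
        have hline := line_natDegree_coeff μ lam Φ D hD
        have hpos : 0 < (line μ lam Φ).natDegree := by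
          by_contra h0
          have h0' : (line μ lam Φ).natDegree = 0 := by omega
          apply hμ
          have e1 := eval_line (A := K) μ lam Φ s
          have e2 := eval_line (A := K) μ lam Φ 0
          rw [Polynomial.eq_C_of_natDegree_eq_zero h0'] at e1 e2
          rw [Polynomial.aeval_C] at e1 e2
          rw [e1] at e2
          simp only [mul_zero, add_zero] at e2
          exact e2
        refine ⟨μ, lam, hpos, lt_of_le_of_ne hline.1 ?_⟩
        intro h0
        have h1 : (line μ lam Φ).coeff (line μ lam Φ).natDegree = 0 := by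
          rw [h0, hline.2, hlead]
        have h2 : line μ lam Φ = 0 := Polynomial.leadingCoeff_eq_zero.1 h1
        rw [h2] at hpos
        simp at hpos

end skeleton

/-- A field which is existentially closed in its Laurent series field is infinite. -/
lemma infinite_of_large (K : Type) [Field K]
    (hlarge : ∀ (n : ℕ) (S : Finset (MvPolynomial (Fin n) K)),
      (∃ x : Fin n → LaurentSeries K, ∀ q ∈ S, MvPolynomial.aeval x q = 0) →
      ∃ x : Fin n → K, ∀ q ∈ S, MvPolynomial.eval x q = 0) : Infinite K := by
  classical
  by_contra hfin
  rw [not_infinite_iff_finite] at hfin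
  have : Fintype K := Fintype.ofFinite K
  set q := Fintype.card K with hq
  have hq1 : 1 < q := Fintype.one_lt_card
  set t : LaurentSeries K := HahnSeries.single 1 1 with ht
  have ht1 : t ^ q - t ≠ 0 := by
    intro h
    have h1 : t ^ q = t := sub_eq_zero.1 h
    have h2 : (t ^ q).order = q := by
      rw [ht, HahnSeries.single_pow]
      rw [HahnSeries.order_single (by simp)]
      simp
    have h3 : t.order = 1 := by rw [ht, HahnSeries.order_single one_ne_zero]
    rw [h1, h3] at h2
    have : (1 : ℤ) < q := by exact_mod_cast hq1
    omega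
  obtain ⟨x, hx⟩ := hlarge 2 {X 1 * (X 0 ^ q - X 0) - 1}
    ⟨![t, (t ^ q - t)⁻¹], fun f hf => by
      rw [Finset.mem_singleton.1 hf]
      simp [inv_mul_cancel₀ ht1]⟩
  have h1 := hx _ (Finset.mem_singleton_self _)
  simp [hq, FiniteField.pow_card] at h1

/-- Largeness for one equation over an arbitrary finite index type. -/
lemma large_transfer (K : Type) [Field K]
    (hlarge : ∀ (n : ℕ) (S : Finset (MvPolynomial (Fin n) K)),
      (∃ x : Fin n → LaurentSeries K, ∀ q ∈ S, MvPolynomial.aeval x q = 0) →
      ∃ x : Fin n → K, ∀ q ∈ S, MvPolynomial.eval x q = 0)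
    {σ : Type} [Finite σ] (Φ : MvPolynomial σ K)
    (h : ∃ x : σ → LaurentSeries K, aeval x Φ = 0) : ∃ x : σ → K, eval x Φ = 0 := by
  classical
  obtain ⟨x, hx⟩ := h
  obtain ⟨n, ⟨e⟩⟩ := Finite.exists_equiv_fin σ
  obtain ⟨y, hy⟩ := hlarge n {rename e Φ} ⟨fun i => x (e.symm i), fun f hf => by
    rw [Finset.mem_singleton.1 hf, aeval_rename]
    have : (fun i => x (e.symm i)) ∘ e = x := by funext i; simp
    rw [this, hx]⟩
  refine ⟨fun i => y (e i), ?_⟩
  have h1 := hy _ (Finset.mem_singleton_self _)
  rw [eval_rename] at h1
  exact h1

end Pool.Agent.H895
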