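import Mathlib
import Pool.Agent.H895.Hensel
import Pool.Agent.H895.Skeleton

set_option autoImplicit false

namespace Pool.Agent.H895

open MvPolynomial

/-- scaling a homogeneous polynomial -/
lemma aeval_scale {K A : Type*} [Field K] [CommRing A] [Algebra K A] {σ : Type*}
    (F : MvPolynomial σ K) (D : ℕ) (hF : F.IsHomogeneous D) (s : A) (y : σ → A) :
    aeval (fun j => s * y j) F = s ^ D * aeval y F := by
  classical
  conv_lhs => rw [F.as_sum]
  conv_rhs => rw [F.as_sum]
  rw [map_sum, map_sum, Finset.mul_sum]
  refine Finset.sum_congr rfl fun d hd => ?_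
  rw [aeval_monomial, aeval_monomial]
  have hdd : D = ∑ i ∈ d.support, d i := by
    have := hF (mem_support_iff.1 hd)
    rw [Finsupp.weight_apply] at this
    simp only [Finsupp.sum, Pi.one_apply, smul_eq_mul, mul_one] at this
    exact this.symm
  have h1 : (d.prod fun i k => (s * y i) ^ k) = s ^ D * d.prod fun i k => y i ^ k := by
    simp only [Finsupp.prod]
    rw [hdd, ← Finset.prod_pow_eq_pow_sum, ← Finset.prod_mul_distrib]
    exact Finset.prod_congr rfl fun i _ => mul_pow _ _ _
  rw [h1]
  ring

/-- the polynomial translated by a constant vector -/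
noncomputable def translate {K : Type*} [Field K] {σ : Type*} (c : σ → K)
    (G : MvPolynomial σ K) : MvPolynomial σ K := aeval (fun i => X i + C (c i)) G

lemma aeval_translate {K A : Type*} [Field K] [CommRing A] [Algebra K A] {σ : Type*} (c : σ → K)
    (G : MvPolynomial σ K) (x : σ → A) :
    aeval x (translate c G) = aeval (fun i => x i + algebraMap K A (c i)) G := by
  unfold translate
  induction G using MvPolynomial.induction_on with
  | C a => simp
  | add f g hf hg => simp only [map_add, hf, hg]
  | mul_X f j hf => simp only [map_mul, hf, aeval_X, map_add, aeval_C]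

lemma aeval_algebraMap_comp {K A : Type*} [Field K] [CommRing A] [Algebra K A] {σ : Type*}
    (x : σ → K) (G : MvPolynomial σ K) :
    aeval (fun i => algebraMap K A (x i)) G = algebraMap K A (eval x G) := by
  induction G using MvPolynomial.induction_on with
  | C a => simp
  | add f g hf hg => simp only [map_add, hf, hg]
  | mul_X f j hf => simp only [map_mul, hf, aeval_X, eval_X]

section

variable {K L : Type} [Field K] [Field L] [Algebra K L]
variable {σ : Type} [Finite σ]
variable (O : ValuationSubring L) (hK : ∀ a : K, algebraMap K L a ∈ O)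

omit [Finite σ] in
/-- choose a `K`-rational translation keeping an inequation -/
lemma exists_translation [Infinite K] (G : MvPolynomial σ K) (w : σ → L) (lam : σ → K) (s : L)
    (hG : aeval (fun i => w i + algebraMap K L (lam i) * s) G ≠ 0) :
    ∃ κ : K, aeval (fun i => w i + algebraMap K L (lam i * κ)) G ≠ 0 := by
  by_contra hcon
  push Not at hcon
  set q : Polynomial L := aeval (fun i => Polynomial.C (w i)
    + Polynomial.C (algebraMap K L (lam i)) * Polynomial.X) G with hq
  have hev : ∀ r : L, q.eval r = aeval (fun i => w i + algebraMap K L (lam i) * r) G := by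
    intro r
    rw [hq]
    have : ∀ f : MvPolynomial σ K, Polynomial.eval r (aeval (fun i => Polynomial.C (w i)
        + Polynomial.C (algebraMap K L (lam i)) * Polynomial.X) f)
        = aeval (fun i => w i + algebraMap K L (lam i) * r) f := by
      intro f
      induction f using MvPolynomial.induction_on with
      | C a => simp [Polynomial.algebraMap_apply]
      | add f g hf hg => simp only [map_add, Polynomial.eval_add, hf, hg]
      | mul_X f j hf => simp [hf]
    exact this G
  have hq0 : q = 0 := by
    apply Polynomial.eq_zero_of_infinite_isRoot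
    refine Set.Infinite.mono (s := Set.range (algebraMap K L)) ?_
      (Set.infinite_range_of_injective (algebraMap K L).injective)
    rintro _ ⟨κ, rfl⟩
    show q.eval _ = 0
    rw [hev]
    have := hcon κ
    simp only [map_mul] at this
    exact this
  apply hG
  rw [← hev, hq0, Polynomial.eval_zero]

include hK in
/-- **Homogeneous skeleton.** A homogeneous polynomial `F` with a zero in `L` at which `G` does
not vanish has such a zero in `K`, or there is a `K`-rational zero of `F` along which `F` is not
translation invariant. -/
theorem skeletonH [Infinite K]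
    (hres : ∀ x ∈ O, ∃ a : K, O.valuation (x - algebraMap K L a) < 1)
    (F : MvPolynomial σ K) (D : ℕ) (hF : F.IsHomogeneous D) :
    ∀ (N : ℕ) (G : MvPolynomial σ K) (w : σ → L), {i | w i ≠ 0}.ncard ≤ N → aeval w F = 0 →
      aeval w G ≠ 0 → (∃ x : σ → K, eval x F = 0 ∧ eval x G ≠ 0) ∨
      ∃ lam : σ → K, eval lam F = 0 ∧
        ∃ (μ : σ → K) (s : K), eval (fun i => μ i + lam i * s) F ≠ eval μ F := by
  classical
  have hbase : ∀ (G : MvPolynomial σ K) (w : σ → L), (∀ i, w i = 0) → aeval w F = 0 →
      aeval w G ≠ 0 → (∃ x : σ → K, eval x F = 0 ∧ eval x G ≠ 0) := by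
    intro G w hw hwF hwG
    have hw' : w = fun i => algebraMap K L ((fun _ => (0 : K)) i) := by
      funext i; rw [hw i, map_zero]
    rw [hw', aeval_algebraMap_comp] at hwF hwG
    refine ⟨fun _ => 0, ?_, ?_⟩
    · exact (map_eq_zero_iff _ (algebraMap K L).injective).1 hwF
    · intro h; apply hwG; rw [h, map_zero]
  intro N
  induction N with
  | zero =>
    intro G w hN hwF hwG
    left
    refine hbase G w (fun i => ?_) hwF hwG
    by_contra hi
    have h1 : {i | w i ≠ 0} = ∅ := (Set.ncard_eq_zero (Set.toFinite _)).1 (by omega)
    have h2 : i ∈ {i | w i ≠ 0} := hi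
    rw [h1] at h2
    exact h2
  | succ N IH =>
    intro G w hN hwF hwG
    by_cases hzero : ∀ i, w i = 0
    · left; exact hbase G w hzero hwF hwG
    · push Not at hzero
      obtain ⟨j, hj⟩ := hzero
      have hne : Nonempty σ := ⟨j⟩
      obtain ⟨i₀, hi₀⟩ := Finite.exists_max (fun i => O.valuation (w i))
      have hs0 : w i₀ ≠ 0 := by
        intro h
        have h1 := hi₀ j
        rw [h, map_zero] at h1
        exact hj ((Valuation.zero_iff _).1 (le_antisymm h1 zero_le))
      have hy : ∀ i, ∃ a : K, O.valuation (w i / w i₀ - algebraMap K L a) < 1 ∧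
          (w i = 0 → a = 0) ∧ (i = i₀ → a = 1) := by
        intro i
        by_cases h0 : w i = 0
        · refine ⟨0, ?_, fun _ => rfl, ?_⟩
          · rw [h0, zero_div, map_zero, sub_self, map_zero]; exact zero_lt_one
          · intro hi; exact absurd (hi ▸ h0) hs0
        · by_cases h1 : i = i₀
          · refine ⟨1, ?_, fun h => absurd h h0, fun _ => rfl⟩
            rw [h1, div_self hs0, map_one, sub_self, map_zero]; exact zero_lt_one
          · obtain ⟨a, ha⟩ := hres (w i / w i₀) ((O.valuation_le_one_iff _).1 (by
              rw [map_div₀]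
              exact div_le_one_of_le₀ (hi₀ i) zero_le))
            exact ⟨a, ha, fun h => absurd h h0, fun h => absurd h h1⟩
      choose lam hlam1 hlam2 hlam3 using hy
      have hFy : aeval (fun i => w i / w i₀) F = 0 := by
        have h1 := aeval_scale F D hF (w i₀) (fun i => w i / w i₀)
        have h2 : (fun j => w i₀ * (w j / w i₀)) = w := by
          funext j
          rw [mul_div_cancel₀ _ hs0]
        rw [h2, hwF] at h1
        rcases mul_eq_zero.1 h1.symm with h3 | h3
        · exact absurd h3 (pow_ne_zero _ hs0)
        · exact h3
      have hlead : eval lam F = 0 := by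
        apply eq_zero_of_val_lt O hK
        have h1 := aeval_residue O hK F (fun i => w i / w i₀) lam hlam1
        rw [hFy, zero_sub, Valuation.map_neg] at h1
        exact h1
      by_cases hinv : ∀ (μ : σ → K) (s : K), eval (fun i => μ i + lam i * s) F = eval μ F
      · set w' : σ → L := fun i => w i + algebraMap K L (lam i) * -w i₀ with hw'
        have hw'F : aeval w' F = 0 := by
          have h1 := invariance (L := L) F lam hinv w (-w i₀)
          rw [hwF] at h1
          exact h1
        obtain ⟨κ, hκ⟩ := exists_translation (L := L) G w' lam (w i₀) (by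
          have h1 : (fun i => w' i + algebraMap K L (lam i) * w i₀) = w := by
            funext i
            rw [hw']
            ring
          rw [h1]
          exact hwG)
        have hcard : {i | w' i ≠ 0}.ncard ≤ N := by
          have hsub : {i | w' i ≠ 0} ⊆ {i | w i ≠ 0} \ {i₀} := by
            intro i hi
            refine ⟨?_, ?_⟩
            · intro h0
              apply hi
              show w i + algebraMap K L (lam i) * -w i₀ = 0
              rw [h0, hlam2 i h0, map_zero, zero_mul, add_zero]
            · intro h0
              apply hi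
              have h0' : i = i₀ := h0
              show w i + algebraMap K L (lam i) * -w i₀ = 0
              rw [hlam3 i h0', map_one, one_mul, h0', add_neg_cancel]
          have h2 : ({i | w i ≠ 0} \ {i₀}).ncard < {i | w i ≠ 0}.ncard := by
            refine Set.ncard_sdiff_singleton_lt_of_mem ?_ (Set.toFinite _)
            exact hs0
          have h3 := Set.ncard_le_ncard hsub (Set.toFinite _)
          omega
        rcases IH (translate (fun i => lam i * κ) G) w' hcard hw'F (by
          rw [aeval_translate]; exact hκ) with ⟨x, hxF, hxG⟩ | h1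
        · left
          refine ⟨fun i => x i + lam i * κ, ?_, ?_⟩
          · rw [hinv x κ, hxF]
          · intro h0
            apply hxG
            have h2 := aeval_translate (A := K) (fun i => lam i * κ) G x
            rw [MvPolynomial.aeval_eq_eval, MvPolynomial.aeval_eq_eval] at h2
            have h3 : eval x (translate (fun i => lam i * κ) G)
              = eval (fun i => x i + lam i * κ) G := h2
            rw [h3, h0]
        · right; exact h1
      · right
        push Not at hinv
        exact ⟨lam, hlead, hinv⟩

end

/-- Largeness for one equation and one inequation over an arbitrary finite index type. -/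
lemma large_transfer2 (K : Type) [Field K]
    (hlarge : ∀ (n : ℕ) (S : Finset (MvPolynomial (Fin n) K)),
      (∃ x : Fin n → LaurentSeries K, ∀ q ∈ S, MvPolynomial.aeval x q = 0) →
      ∃ x : Fin n → K, ∀ q ∈ S, MvPolynomial.eval x q = 0)
    {σ : Type} [Finite σ] (Φ G : MvPolynomial σ K)
    (h : ∃ x : σ → LaurentSeries K, aeval x Φ = 0 ∧ aeval x G ≠ 0) :
    ∃ x : σ → K, eval x Φ = 0 ∧ eval x G ≠ 0 := by
  classical
  obtain ⟨x, hx, hxG⟩ := h
  obtain ⟨n, ⟨e⟩⟩ := Finite.exists_equiv_fin (Option σ)
  obtain ⟨y, hy⟩ := hlarge n {rename e (rename some Φ),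
      rename e (X none * rename some G - 1)}
    ⟨fun i => (e.symm i).elim ((aeval x G)⁻¹) x, fun f hf => by
      have hcomp : ((fun i => (e.symm i).elim ((aeval x G)⁻¹) x) ∘ e)
          = fun o : Option σ => o.elim ((aeval x G)⁻¹) x := by
        funext i; simp
      rcases Finset.mem_insert.1 hf with h1 | h1
      · rw [h1, aeval_rename, hcomp, aeval_rename]
        exact hx
      · rw [Finset.mem_singleton.1 h1, aeval_rename, hcomp, map_sub, map_mul, map_one, aeval_X,
          aeval_rename]
        have h2 : aeval ((fun o : Option σ => o.elim ((aeval x G)⁻¹) x) ∘ some) G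
          = aeval x G := rfl
        rw [h2, Option.elim_none, inv_mul_cancel₀ hxG, sub_self]⟩
  refine ⟨fun i => y (e (some i)), ?_, ?_⟩
  · have h1 := hy _ (Finset.mem_insert_self _ _)
    rw [eval_rename, eval_rename] at h1
    exact h1
  · have h1 := hy _ (Finset.mem_insert_of_mem (Finset.mem_singleton_self _))
    rw [eval_rename, map_sub, map_mul, map_one, eval_X, eval_rename] at h1
    intro h2
    have h3 : eval ((y ∘ e) ∘ some) G = 0 := h2
    rw [h3, mul_zero, zero_sub] at h1
    exact one_ne_zero (neg_eq_zero.1 h1)

end Pool.Agent.H895
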